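import Mathlib
set_option autoImplicit false
set_option maxHeartbeats 1000000

/-! Bipartitions and the sum of squared degrees. -/

namespace Helper650_SD

open Finset

/-- `μ(G[S])`: the sum over `v ∈ S` of the square of the number of neighbours of `v` in `S`. -/
noncomputable def muOn {n : ℕ} (G : SimpleGraph (Fin n)) (S : Finset (Fin n)) : ℕ :=
  ∑ v ∈ S, (Nat.card {w : Fin n // w ∈ S ∧ G.Adj v w}) ^ 2

/-- `f_μ(G)`: the minimum of `μ(G[S]) + μ(G[V \ S])` over all vertex sets `S`. -/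
noncomputable def fG {n : ℕ} (G : SimpleGraph (Fin n)) : ℕ :=
  sInf (Set.range (fun S : Finset (Fin n) => muOn G S + muOn G Sᶜ))

/-- `f_μ(m)`: the maximum of `f_μ(G)` over all finite graphs with `m` edges. -/
noncomputable def fmu (m : ℕ) : ℕ :=
  sSup {k | ∃ (n : ℕ) (G : SimpleGraph (Fin n)), Nat.card G.edgeSet = m ∧ k = fG G}

open Classical in
theorem inner_eq {n : ℕ} (G : SimpleGraph (Fin n)) (S : Finset (Fin n)) (v : Fin n) :
    Nat.card {w : Fin n // w ∈ S ∧ G.Adj v w} = (S.filter (fun w => G.Adj v w)).card := by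
  rw [Nat.card_eq_fintype_card, Fintype.card_subtype]
  congr 1
  ext w
  simp

open Classical in
theorem sum_deg {n : ℕ} (G : SimpleGraph (Fin n)) :
    ∑ v, (G.degree v) = 2 * Nat.card G.edgeSet := by
  rw [SimpleGraph.sum_degrees_eq_twice_card_edges, SimpleGraph.edgeFinset_card,
    Nat.card_eq_fintype_card]

open Classical in
theorem upper {n : ℕ} (G : SimpleGraph (Fin n)) (m : ℕ) (hm : Nat.card G.edgeSet = m) :
    (fG G : ℝ) ≤ (√(2 * m)) ^ 3 := by
  set x : ℝ := √(2 * m) with hx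
  have hx0 : 0 ≤ x := Real.sqrt_nonneg _
  have hx2 : x ^ 2 = 2 * m := Real.sq_sqrt (by positivity)
  have hsum : (∑ v, (G.degree v : ℝ)) = x ^ 2 := by
    rw [hx2]
    have := sum_deg G
    rw [hm] at this
    exact_mod_cast this
  set B : Finset (Fin n) := Finset.univ.filter (fun v => x < (G.degree v : ℝ)) with hB
  have hBc : (B.card : ℝ) ≤ x := by
    by_contra hcon
    rw [not_le] at hcon
    have hBpos : 0 < B.card := by
      have : (0 : ℝ) < B.card := lt_of_le_of_lt hx0 hcon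
      exact_mod_cast this
    have hne : B.Nonempty := Finset.card_pos.mp hBpos
    have h1 : ∑ _v ∈ B, x < ∑ v ∈ B, (G.degree v : ℝ) := by
      apply Finset.sum_lt_sum_of_nonempty hne
      intro v hv
      rw [hB, Finset.mem_filter] at hv
      exact hv.2
    rw [Finset.sum_const, nsmul_eq_mul] at h1
    have h2 : ∑ v ∈ B, (G.degree v : ℝ) ≤ ∑ v, (G.degree v : ℝ) :=
      Finset.sum_le_sum_of_subset_of_nonneg (Finset.subset_univ _) (fun _ _ _ => Nat.cast_nonneg _)
    rw [hsum] at h2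
    nlinarith
  have hle : fG G ≤ muOn G B + muOn G Bᶜ := Nat.sInf_le ⟨B, rfl⟩
  have hdeg : ∀ (S : Finset (Fin n)) (v : Fin n), (S.filter (fun w => G.Adj v w)).card ≤ G.degree v := by
    intro S v
    rw [← SimpleGraph.card_neighborFinset_eq_degree]
    apply Finset.card_le_card
    intro w hw
    rw [SimpleGraph.mem_neighborFinset]
    exact (Finset.mem_filter.mp hw).2
  have h1 : (muOn G B : ℝ) ≤ ∑ v ∈ B, x * (G.degree v : ℝ) := by
    unfold muOn
    push_cast
    apply Finset.sum_le_sum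
    intro v _
    rw [inner_eq]
    have a1 : ((B.filter (fun w => G.Adj v w)).card : ℝ) ≤ G.degree v := by exact_mod_cast hdeg B v
    have a2 : ((B.filter (fun w => G.Adj v w)).card : ℝ) ≤ x := by
      have : ((B.filter (fun w => G.Adj v w)).card : ℝ) ≤ B.card := by exact_mod_cast Finset.card_filter_le _ _
      linarith
    have a0 : (0 : ℝ) ≤ ((B.filter (fun w => G.Adj v w)).card : ℝ) := Nat.cast_nonneg _
    rw [sq]
    exact mul_le_mul a2 a1 a0 hx0
  have h2 : (muOn G Bᶜ : ℝ) ≤ ∑ v ∈ Bᶜ, x * (G.degree v : ℝ) := by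
    unfold muOn
    push_cast
    apply Finset.sum_le_sum
    intro v hv
    rw [inner_eq]
    have a1 : (((Bᶜ).filter (fun w => G.Adj v w)).card : ℝ) ≤ G.degree v := by exact_mod_cast hdeg Bᶜ v
    have a2 : (G.degree v : ℝ) ≤ x := by
      rw [hB, Finset.mem_compl, Finset.mem_filter, not_and] at hv
      exact not_lt.mp (hv (Finset.mem_univ _))
    have a0 : (0 : ℝ) ≤ (((Bᶜ).filter (fun w => G.Adj v w)).card : ℝ) := Nat.cast_nonneg _
    rw [sq]
    exact mul_le_mul (le_trans a1 a2) a1 a0 hx0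
  have h3 : ∑ v ∈ B, x * (G.degree v : ℝ) + ∑ v ∈ Bᶜ, x * (G.degree v : ℝ) = x ^ 3 := by
    rw [Finset.sum_add_sum_compl, ← Finset.mul_sum, hsum]
    ring
  have h4 : (fG G : ℝ) ≤ (muOn G B : ℝ) + (muOn G Bᶜ : ℝ) := by exact_mod_cast hle
  linarith

theorem bdd (m : ℕ) : BddAbove {k | ∃ (n : ℕ) (G : SimpleGraph (Fin n)), Nat.card G.edgeSet = m ∧ k = fG G} := by
  refine ⟨⌊(√(2 * m)) ^ 3⌋₊, ?_⟩
  rintro k ⟨n, G, hm, rfl⟩
  exact Nat.le_floor (upper G m hm)

theorem fmu_le (m : ℕ) : (fmu m : ℝ) ≤ (√(2 * m)) ^ 3 := by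
  have hne : {k | ∃ (n : ℕ) (G : SimpleGraph (Fin n)), Nat.card G.edgeSet = m ∧ k = fG G}.Nonempty ∨
      ¬ {k | ∃ (n : ℕ) (G : SimpleGraph (Fin n)), Nat.card G.edgeSet = m ∧ k = fG G}.Nonempty := em _
  rcases hne with hne | hne
  · obtain ⟨n, G, hm, hk⟩ := Nat.sSup_mem hne (bdd m)
    have h1 : fmu m = fG G := hk
    rw [h1]
    exact upper G m hm
  · rw [Set.not_nonempty_iff_eq_empty] at hne
    have h1 : fmu m = 0 := by
      unfold fmu
      rw [hne]
      simp
    rw [h1]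
    push_cast
    positivity

end Helper650_SD
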