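import Mathlib
import Pool.Agent.Helper650_SD.Basic
set_option autoImplicit false
set_option maxHeartbeats 1000000

namespace Helper650_SD

open Finset

/-- Largest clique size. -/
theorem exists_clique_size (m : ℕ) (hm : 1 ≤ m) : ∃ n : ℕ, 2 ≤ n ∧ n.choose 2 ≤ m ∧ m < (n + 1).choose 2 := by
  classical
  have hex : ∃ k : ℕ, m < (k + 1).choose 2 := by
    refine ⟨m + 1, ?_⟩
    rw [Nat.choose_two_right]
    have : m + 1 + 1 - 1 = m + 1 := by omega
    rw [this]
    have h2 : 2 * (m + 1) ≤ (m + 1 + 1) * (m + 1) := Nat.mul_le_mul_right _ (by omega)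
    omega
  refine ⟨Nat.find hex, ?_, ?_, Nat.find_spec hex⟩
  · by_contra hlt
    have hs := Nat.find_spec hex
    have h01 : Nat.find hex = 0 ∨ Nat.find hex = 1 := by omega
    rcases h01 with h | h
    · rw [h] at hs
      simp [Nat.choose] at hs
    · rw [h] at hs
      simp [Nat.choose] at hs
      omega
  · rcases Nat.eq_zero_or_pos (Nat.find hex) with h | h
    · rw [h]
      simp
    · have := Nat.find_min hex (m := Nat.find hex - 1) (by omega)
      rw [not_lt] at this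
      have e : Nat.find hex - 1 + 1 = Nat.find hex := by omega
      rw [e] at this
      exact this

theorem exists_graph (m n : ℕ) (h1 : n.choose 2 ≤ m) (h2 : m ≤ (n + 1).choose 2) :
    ∃ G : SimpleGraph (Fin (n + 1)), Nat.card G.edgeSet = m ∧
      ∀ i j : Fin n, i ≠ j → G.Adj i.castSucc j.castSucc := by
  classical
  set s : Finset (Sym2 (Fin (n + 1))) := (⊤ : SimpleGraph (Fin n)).edgeFinset.map
    (Function.Embedding.sym2Map Fin.castSuccEmb) with hs
  have hsc : s.card = n.choose 2 := by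
    rw [hs, Finset.card_map, SimpleGraph.card_edgeFinset_top_eq_card_choose_two, Fintype.card_fin]
  have huc : ((⊤ : SimpleGraph (Fin (n + 1))).edgeFinset).card = (n + 1).choose 2 := by
    rw [SimpleGraph.card_edgeFinset_top_eq_card_choose_two, Fintype.card_fin]
  have hsu : s ⊆ (⊤ : SimpleGraph (Fin (n + 1))).edgeFinset := by
    intro e he
    rw [hs, Finset.mem_map] at he
    obtain ⟨e', he', rfl⟩ := he
    induction e' using Sym2.ind with
    | _ a b =>
      rw [SimpleGraph.mem_edgeFinset, SimpleGraph.mem_edgeSet, SimpleGraph.top_adj] at he'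
      rw [SimpleGraph.mem_edgeFinset]
      change s(Fin.castSucc a, Fin.castSucc b) ∈ (⊤ : SimpleGraph (Fin (n + 1))).edgeSet
      rw [SimpleGraph.mem_edgeSet, SimpleGraph.top_adj]
      intro h
      exact he' (Fin.castSucc_injective n h)
  obtain ⟨t, hst, htu, htc⟩ := Finset.exists_subsuperset_card_eq hsu (n := m) (by rw [hsc]; exact h1)
    (by rw [huc]; exact h2)
  have hnd : ∀ e ∈ t, ¬ e.IsDiag := by
    intro e he
    have := htu he
    rw [SimpleGraph.mem_edgeFinset] at this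
    exact (⊤ : SimpleGraph (Fin (n + 1))).not_isDiag_of_mem_edgeSet this
  refine ⟨SimpleGraph.fromEdgeSet (t : Set (Sym2 (Fin (n + 1)))), ?_, ?_⟩
  · have h3 : (SimpleGraph.fromEdgeSet (t : Set (Sym2 (Fin (n + 1))))).edgeSet = (t : Set (Sym2 (Fin (n + 1)))) := by
      rw [SimpleGraph.edgeSet_fromEdgeSet]
      ext e
      constructor
      · exact fun h => h.1
      · exact fun h => ⟨h, fun h' => hnd e h h'⟩
    rw [h3]
    rw [Nat.card_eq_fintype_card]
    simp [htc]
  · intro i j hij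
    rw [SimpleGraph.fromEdgeSet_adj]
    refine ⟨?_, fun h => hij (Fin.castSucc_injective n h)⟩
    apply hst
    rw [hs, Finset.mem_map]
    refine ⟨s(i, j), ?_, rfl⟩
    rw [SimpleGraph.mem_edgeFinset, SimpleGraph.mem_edgeSet, SimpleGraph.top_adj]
    exact hij

open Classical in
theorem muOn_ge (n : ℕ) (G : SimpleGraph (Fin (n + 1))) (hG : ∀ i j : Fin n, i ≠ j → G.Adj i.castSucc j.castSucc)
    (S : Finset (Fin (n + 1))) :
    (Finset.univ.filter (fun i : Fin n => i.castSucc ∈ S)).card *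
      ((Finset.univ.filter (fun i : Fin n => i.castSucc ∈ S)).card - 1) ^ 2 ≤ muOn G S := by
  set A : Finset (Fin n) := Finset.univ.filter (fun i : Fin n => i.castSucc ∈ S) with hA
  have hAS : A.map Fin.castSuccEmb ⊆ S := by
    intro v hv
    rw [Finset.mem_map] at hv
    obtain ⟨i, hi, rfl⟩ := hv
    exact (Finset.mem_filter.mp hi).2
  unfold muOn
  calc A.card * (A.card - 1) ^ 2 = ∑ v ∈ A.map Fin.castSuccEmb, (A.card - 1) ^ 2 := by
        rw [Finset.sum_const, Finset.card_map, smul_eq_mul]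
    _ ≤ ∑ v ∈ A.map Fin.castSuccEmb, (Nat.card {w : Fin (n + 1) // w ∈ S ∧ G.Adj v w}) ^ 2 := by
        apply Finset.sum_le_sum
        intro v hv
        apply Nat.pow_le_pow_left
        rw [inner_eq]
        rw [Finset.mem_map] at hv
        obtain ⟨i, hi, rfl⟩ := hv
        have h1 : ((A.erase i).map Fin.castSuccEmb) ⊆ S.filter (fun w => G.Adj (Fin.castSucc i) w) := by
          intro w hw
          rw [Finset.mem_map] at hw
          obtain ⟨j, hj, rfl⟩ := hw
          rw [Finset.mem_erase] at hj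
          rw [Finset.mem_filter]
          refine ⟨(Finset.mem_filter.mp hj.2).2, ?_⟩
          exact hG i j (fun h => hj.1 h.symm)
        have h2 := Finset.card_le_card h1
        rw [Finset.card_map, Finset.card_erase_of_mem hi] at h2
        exact h2
    _ ≤ ∑ v ∈ S, (Nat.card {w : Fin (n + 1) // w ∈ S ∧ G.Adj v w}) ^ 2 :=
        Finset.sum_le_sum_of_subset hAS

theorem cubic (a b : ℕ) (hab : 2 ≤ a + b) :
    ((a + b : ℕ) : ℝ) * (((a + b : ℕ) : ℝ) - 2) ^ 2 ≤ 4 * ((a * (a - 1) ^ 2 + b * (b - 1) ^ 2 : ℕ) : ℝ) := by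
  have ha : ((a * (a - 1) ^ 2 : ℕ) : ℝ) = (a : ℝ) * ((a : ℝ) - 1) ^ 2 := by
    rcases Nat.eq_zero_or_pos a with h | h
    · subst h; simp
    · push_cast [Nat.cast_sub h]
      ring
  have hb : ((b * (b - 1) ^ 2 : ℕ) : ℝ) = (b : ℝ) * ((b : ℝ) - 1) ^ 2 := by
    rcases Nat.eq_zero_or_pos b with h | h
    · subst h; simp
    · push_cast [Nat.cast_sub h]
      ring
  rw [Nat.cast_add (a * (a - 1) ^ 2), ha, hb]
  have hab' : (2 : ℝ) ≤ (a : ℝ) + b := by exact_mod_cast hab
  push_cast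
  have key : 4 * ((a : ℝ) * ((a : ℝ) - 1) ^ 2 + (b : ℝ) * ((b : ℝ) - 1) ^ 2) -
      ((a : ℝ) + b) * (((a : ℝ) + b) - 2) ^ 2 = ((a : ℝ) - b) ^ 2 * (3 * ((a : ℝ) + b) - 4) := by ring
  have h0 : 0 ≤ ((a : ℝ) - b) ^ 2 * (3 * ((a : ℝ) + b) - 4) := mul_nonneg (sq_nonneg _) (by linarith)
  linarith

theorem lower_cost (n : ℕ) (hn : 2 ≤ n) (G : SimpleGraph (Fin (n + 1)))
    (hG : ∀ i j : Fin n, i ≠ j → G.Adj i.castSucc j.castSucc) (S : Finset (Fin (n + 1))) :
    (n : ℝ) * ((n : ℝ) - 2) ^ 2 / 4 ≤ ((muOn G S + muOn G Sᶜ : ℕ) : ℝ) := by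
  classical
  have h1 := muOn_ge n G hG S
  have h2 := muOn_ge n G hG Sᶜ
  set a := (Finset.univ.filter (fun i : Fin n => i.castSucc ∈ S)).card with ha
  set b := (Finset.univ.filter (fun i : Fin n => i.castSucc ∈ Sᶜ)).card with hb
  have hab : a + b = n := by
    have h3 : (Finset.univ.filter (fun i : Fin n => i.castSucc ∈ Sᶜ)) =
        Finset.univ.filter (fun i : Fin n => ¬ (i.castSucc ∈ S)) := by
      ext i
      simp
    rw [hb, h3, ha, Finset.card_filter_add_card_filter_not]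
    simp
  have h4 := cubic a b (by omega)
  rw [hab] at h4
  have h5 : ((a * (a - 1) ^ 2 + b * (b - 1) ^ 2 : ℕ) : ℝ) ≤ ((muOn G S + muOn G Sᶜ : ℕ) : ℝ) := by
    exact_mod_cast Nat.add_le_add h1 h2
  linarith

theorem le_fmu (m : ℕ) (hm : 1 ≤ m) : (√(2 * m) - 3) ^ 3 / 4 ≤ (fmu m : ℝ) := by
  obtain ⟨n, hn2, hn, hn'⟩ := exists_clique_size m hm
  obtain ⟨G, hGm, hG⟩ := exists_graph m n hn hn'.le
  have hmem : fG G ∈ {k | ∃ (n : ℕ) (G : SimpleGraph (Fin n)), Nat.card G.edgeSet = m ∧ k = fG G} :=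
    ⟨n + 1, G, hGm, rfl⟩
  have h1 : fG G ≤ fmu m := le_csSup (bdd m) hmem
  have h2 : (n : ℝ) * ((n : ℝ) - 2) ^ 2 / 4 ≤ (fG G : ℝ) := by
    have hr : (Set.range (fun S : Finset (Fin (n + 1)) => muOn G S + muOn G Sᶜ)).Nonempty := ⟨_, ⟨∅, rfl⟩⟩
    obtain ⟨S, hS⟩ := Nat.sInf_mem hr
    have h3 : fG G = muOn G S + muOn G Sᶜ := hS.symm
    rw [h3]
    exact lower_cost n hn2 G hG S
  have h4 : (fG G : ℝ) ≤ fmu m := by exact_mod_cast h1
  set x : ℝ := √(2 * m) with hx
  have hx0 : 0 ≤ x := Real.sqrt_nonneg _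
  have hx2 : x ^ 2 = 2 * m := Real.sq_sqrt (by positivity)
  have hxn : x < n + 1 := by
    rw [Nat.choose_two_right] at hn'
    have h5 : 2 * m < (n + 1) * (n + 1) := by
      have h6 : m < (n + 1) * n / 2 := by
        have : n + 1 - 1 = n := by omega
        rwa [this] at hn'
      have h7 : 2 * m < (n + 1) * n := by omega
      nlinarith
    have h8 : x ^ 2 < ((n : ℝ) + 1) ^ 2 := by
      rw [hx2, sq]
      exact_mod_cast h5
    exact lt_of_pow_lt_pow_left₀ 2 (by positivity) h8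
  have hn0 : (2 : ℝ) ≤ n := by exact_mod_cast hn2
  rcases le_or_gt x 3 with h3 | h3
  · have h5 : (x - 3) ^ 3 ≤ 0 := by
      have : (x - 3) ^ 3 = (x - 3) * (x - 3) ^ 2 := by ring
      rw [this]
      exact mul_nonpos_of_nonpos_of_nonneg (by linarith) (sq_nonneg _)
    have h6 : (0 : ℝ) ≤ fmu m := Nat.cast_nonneg _
    linarith
  · have h5 : (x - 3) ^ 3 ≤ (n : ℝ) * ((n : ℝ) - 2) ^ 2 := by
      have e1 : (x - 3) ^ 3 = (x - 3) * (x - 3) ^ 2 := by ring
      rw [e1]
      apply mul_le_mul (by linarith) _ (sq_nonneg _) (by linarith)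
      apply pow_le_pow_left₀ (by linarith)
      linarith
    linarith

end Helper650_SD
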