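import Mathlib
import Pool.Agent.Helper650_SD.Lower
set_option autoImplicit false
set_option maxHeartbeats 1000000

namespace Helper650_SD

open Finset

/-- `g_μ(G)`: the minimum of `max (μ(G[S])) (μ(G[V \ S]))` over all vertex sets `S`. -/
noncomputable def gG {n : ℕ} (G : SimpleGraph (Fin n)) : ℕ :=
  sInf (Set.range (fun S : Finset (Fin n) => max (muOn G S) (muOn G Sᶜ)))

/-- `g_μ(m)`: the maximum of `g_μ(G)` over all finite graphs with `m` edges. -/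
noncomputable def gmu (m : ℕ) : ℕ :=
  sSup {k | ∃ (n : ℕ) (G : SimpleGraph (Fin n)), Nat.card G.edgeSet = m ∧ k = gG G}

theorem gG_le_fG {n : ℕ} (G : SimpleGraph (Fin n)) : gG G ≤ fG G := by
  have hr : (Set.range (fun S : Finset (Fin n) => muOn G S + muOn G Sᶜ)).Nonempty := ⟨_, ⟨∅, rfl⟩⟩
  obtain ⟨S, hS⟩ := Nat.sInf_mem hr
  have h3 : fG G = muOn G S + muOn G Sᶜ := hS.symm
  have h1 : gG G ≤ max (muOn G S) (muOn G Sᶜ) := Nat.sInf_le ⟨S, rfl⟩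
  rw [h3]
  exact le_trans h1 (max_le (Nat.le_add_right _ _) (Nat.le_add_left _ _))

theorem fG_le_two_gG {n : ℕ} (G : SimpleGraph (Fin n)) : fG G ≤ 2 * gG G := by
  have hr : (Set.range (fun S : Finset (Fin n) => max (muOn G S) (muOn G Sᶜ))).Nonempty := ⟨_, ⟨∅, rfl⟩⟩
  obtain ⟨S, hS⟩ := Nat.sInf_mem hr
  have h3 : gG G = max (muOn G S) (muOn G Sᶜ) := hS.symm
  have h1 : fG G ≤ muOn G S + muOn G Sᶜ := Nat.sInf_le ⟨S, rfl⟩
  rw [h3]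
  have h4 := le_max_left (muOn G S) (muOn G Sᶜ)
  have h5 := le_max_right (muOn G S) (muOn G Sᶜ)
  omega

theorem bdd_g (m : ℕ) : BddAbove {k | ∃ (n : ℕ) (G : SimpleGraph (Fin n)), Nat.card G.edgeSet = m ∧ k = gG G} := by
  obtain ⟨b, hb⟩ := bdd m
  refine ⟨b, ?_⟩
  rintro k ⟨n, G, hm, rfl⟩
  exact le_trans (gG_le_fG G) (hb ⟨n, G, hm, rfl⟩)

theorem exists_mem (m : ℕ) : ∃ (n : ℕ) (G : SimpleGraph (Fin n)), Nat.card G.edgeSet = m := by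
  rcases Nat.eq_zero_or_pos m with h | h
  · subst h
    refine ⟨0, ⊥, ?_⟩
    simp
  · obtain ⟨n, _, hn, hn'⟩ := exists_clique_size m h
    obtain ⟨G, hGm, _⟩ := exists_graph m n hn hn'.le
    exact ⟨n + 1, G, hGm⟩

theorem gmu_le_fmu (m : ℕ) : gmu m ≤ fmu m := by
  apply csSup_le
  · obtain ⟨n, G, hm⟩ := exists_mem m
    exact ⟨gG G, n, G, hm, rfl⟩
  · rintro k ⟨n, G, hm, rfl⟩
    exact le_trans (gG_le_fG G) (le_csSup (bdd m) ⟨n, G, hm, rfl⟩)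

theorem fmu_le_two_gmu (m : ℕ) : fmu m ≤ 2 * gmu m := by
  apply csSup_le
  · obtain ⟨n, G, hm⟩ := exists_mem m
    exact ⟨fG G, n, G, hm, rfl⟩
  · rintro k ⟨n, G, hm, rfl⟩
    exact le_trans (fG_le_two_gG G) (Nat.mul_le_mul_left 2 (le_csSup (bdd_g m) ⟨n, G, hm, rfl⟩))

theorem gmu_bounds (m : ℕ) (hm : 1 ≤ m) :
    (√(2 * m) - 3) ^ 3 / 8 ≤ (gmu m : ℝ) ∧ (gmu m : ℝ) ≤ (√(2 * m)) ^ 3 := by
  have h1 := le_fmu m hm
  have h2 : (fmu m : ℝ) ≤ 2 * gmu m := by exact_mod_cast fmu_le_two_gmu m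
  have h3 : (gmu m : ℝ) ≤ fmu m := by exact_mod_cast gmu_le_fmu m
  exact ⟨by linarith, le_trans h3 (fmu_le m)⟩

end Helper650_SD
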